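import Pool.Agent.N64.AF.Q

/-!
# Filtrations of Bloch–Beilinson type: definitions
-/

set_option autoImplicit false

open CategoryTheory MonoidalCategory Module
open Pool.Agent.Y112.SR Pool.Agent.Y112.KD Pool.Agent.N64.AF

namespace Pool.Agent.U724.BB

universe v u w

variable {C : Type u} [Category.{v} C] [Preadditive C] [MonoidalCategory C] [SymmetricCategory C]
  [Linear ℚ C] {K : Type w} [Field K]

/-- A descending filtration `G k Z` of the groups `CH(Z) = Hom(𝟙, Z)` such that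
* `G 0` is everything and `G 1` consists of the homologically trivial elements;
* all morphisms (correspondences) preserve the filtration;
* homologically trivial morphisms map `G k` to `G (k + 1)`;
* on each power of `T` the filtration becomes stationary. -/
structure IsFiltration (R : SuperRealisation C K) (T : C)
    (G : ℕ → ∀ Z : C, Submodule ℚ (𝟙_ C ⟶ Z)) : Prop where
  zero : ∀ Z, G 0 Z = ⊤
  one : ∀ (Z : C) (α : 𝟙_ C ⟶ Z), α ∈ G 1 Z ↔ R.H.map α = 0
  anti : ∀ k Z, G (k + 1) Z ≤ G k Z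
  stab : ∀ (k : ℕ) {Y Z : C} (f : Y ⟶ Z) (α : 𝟙_ C ⟶ Y), α ∈ G k Y → α ≫ f ∈ G k Z
  shift : ∀ (k : ℕ) {Y Z : C} (f : Y ⟶ Z) (α : 𝟙_ C ⟶ Y), R.H.map f = 0 → α ∈ G k Y →
    α ≫ f ∈ G (k + 1) Z
  stat : ∀ n, ∃ l, ∀ k, l ≤ k → G k (tp T n) = G l (tp T n)

/-- The intersection of all steps of the filtration. -/
def infG (G : ℕ → ∀ Z : C, Submodule ℚ (𝟙_ C ⟶ Z)) (Z : C) : Submodule ℚ (𝟙_ C ⟶ Z) :=
  ⨅ k, G k Z

end Pool.Agent.U724.BB
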