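import Pool.Agent.U724.BB.Defs
import Pool.Agent.U724.NT.Law
import Pool.Agent.N64.AF.L1
import Pool.Agent.N64.AF.M1

/-!
# The law for the intersection of a filtration of Bloch–Beilinson type
-/

set_option autoImplicit false
set_option linter.unusedSectionVars false

open CategoryTheory Limits MonoidalCategory Module Filter Topology
open Pool.Agent.Y112.SR Pool.Agent.Y112.KD Pool.Agent.N64.AF Pool.Agent.U724.NT
open Pool.Agent.N701.AFE5 Pool.Agent.N645.AFK1
open scoped ENNReal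

namespace Pool.Agent.U724.BB

universe v u w t x

section Up

variable {C : Type u} [Category.{v} C] [Preadditive C] [MonoidalCategory C]
  [MonoidalPreadditive C] [SymmetricCategory C]

/-- The functor `W ↦ W ⊗ T ⊗ ⋯ ⊗ T`. -/
def up (T : C) : ℕ → (C ⥤ C)
  | 0 => 𝟭 C
  | a + 1 => tensorRight T ⋙ up T a

/-- The iterated coevaluation. -/
def coevs (T : C) [ExactPairing T T] : ∀ a : ℕ, 𝟙_ C ⟶ (up T a).obj (tp T a)
  | 0 => 𝟙 _
  | a + 1 => coevs T a ≫ (up T a).map
      ((ρ_ (tp T a)).inv ≫ (tp T a ◁ η_ T T) ≫ (α_ _ _ _).inv)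

lemma coevs_inj (Λ : Type t) [Field Λ] [CharZero Λ] [Linear Λ C] [MonoidalLinear Λ C] (T : C)
    [ExactPairing T T] (a : ℕ) : ∀ {W : C} (f : tp T a ⟶ W),
    coevs T a ≫ (up T a).map f = 0 → f = 0 := by
  induction a with
  | zero =>
    intro W f h
    change 𝟙 _ ≫ f = 0 at h
    rwa [Category.id_comp] at h
  | succ a ih =>
    intro W f h
    have h1 : coevs T a ≫ (up T a).map (cur Λ T (tp T a) W f) = 0 := by
      rw [cur_eq, Functor.map_comp, ← Category.assoc]
      exact h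
    exact (LinearEquiv.map_eq_zero_iff _).1 (ih _ h1)

lemma up_iso (T : C) (a : ℕ) : ∀ b : ℕ, ∃ N : ℕ, Nonempty ((up T a).obj (tp T b) ≅ tp T N) := by
  induction a with
  | zero => exact fun b => ⟨b, ⟨Iso.refl _⟩⟩
  | succ a ih => exact fun b => ih (b + 1)

variable {K : Type w} [Field K] (R : SuperRealisation C K)

lemma up_hom (T : C) (a : ℕ) : ∀ {Y Z : C} (f : Y ⟶ Z), R.H.map f = 0 →
    R.H.map ((up T a).map f) = 0 := by
  induction a with
  | zero => exact fun f h => h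
  | succ a ih =>
    intro Y Z f h
    refine ih (f ▷ T) ?_
    rw [Functor.Monoidal.map_whiskerRight, h]
    simp

end Up

variable {C : Type u} [Category.{v} C] [Preadditive C] [MonoidalCategory C]
  [MonoidalPreadditive C] [SymmetricCategory C] [RightRigidCategory C]
  [Linear ℚ C] [MonoidalLinear ℚ C]
  {K : Type w} [Field K] [IsAlgClosed K] [Algebra ℚ K] {R : SuperRealisation C K}
  {G : ℕ → ∀ Z : C, Submodule ℚ (𝟙_ C ⟶ Z)}

lemma mem_infG {Z : C} {α : 𝟙_ C ⟶ Z} : α ∈ infG G Z ↔ ∀ k, α ∈ G k Z := Submodule.mem_iInf _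

lemma inf_stab {T : C} (hG : IsFiltration R T G) : IsStab (homF ℚ (𝟙_ C)) (infG G) := by
  intro Y Z f α hα
  exact mem_infG.2 fun k => hG.stab k f α (mem_infG.1 hα k)

/-- Nilpotence. -/
theorem nil_of_fin {T : C} [ExactPairing T T] (h : IsPow ℚ R T) (hG : IsFiltration R T G) {j : ℕ}
    (hj : ∀ (a b : ℕ) (f : tp T a ⟶ tp T b), NumPow T j f →
      (sub (homF ℚ (𝟙_ C)) (infG G) (inf_stab hG)).map f = 0) (m : ℕ) (y : End (tp T m))
    (hy : R.H.map (y : tp T m ⟶ tp T m) = 0) : IsNilpotent y := by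
  obtain ⟨N, ⟨i⟩⟩ := up_iso T m m
  obtain ⟨l, hl⟩ := hG.stat N
  set u : (up T m).obj (tp T m) ⟶ (up T m).obj (tp T m) := (up T m).map (y : tp T m ⟶ tp T m)
    with hu
  have hu0 : R.H.map u = 0 := up_hom R T m _ hy
  let α : ℕ → (𝟙_ C ⟶ (up T m).obj (tp T m)) := fun L =>
    coevs T m ≫ (up T m).map ((y ^ L : End (tp T m)) : tp T m ⟶ tp T m)
  have hα : ∀ L, α (L + 1) = α L ≫ u := by
    intro L
    change coevs T m ≫ (up T m).map ((y ^ (L + 1) : End (tp T m)) : tp T m ⟶ tp T m) =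
      (coevs T m ≫ (up T m).map ((y ^ L : End (tp T m)) : tp T m ⟶ tp T m)) ≫ u
    rw [pow_succ', End.mul_def, Functor.map_comp, Category.assoc]
  have hαG : ∀ L, α L ∈ G L _ := by
    intro L
    induction L with
    | zero =>
      rw [hG.zero]
      exact Submodule.mem_top
    | succ L ih =>
      rw [hα]
      exact hG.shift L u _ hu0 ih
  have hβ : α l ≫ i.hom ∈ infG G (tp T N) := by
    rw [mem_infG]
    intro k
    by_cases hk : l ≤ k
    · rw [hl k hk]
      exact hG.stab l i.hom _ (hαG l)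
    · have h1 : G l (tp T N) ≤ G k (tp T N) :=
        (antitone_nat_of_succ_le (f := fun k => G k (tp T N)) fun k => hG.anti k _)
          (not_le.1 hk).le
      exact h1 (hG.stab l i.hom _ (hαG l))
  let u' : End (tp T N) := (i.inv ≫ u ≫ i.hom : tp T N ⟶ tp T N)
  have hu' : NumTriv (u' : tp T N ⟶ tp T N) := by
    refine numTriv_of_map h.real ?_
    change R.H.map (i.inv ≫ u ≫ i.hom) = 0
    rw [Functor.map_comp, Functor.map_comp, hu0, zero_comp, comp_zero]
  have hpow : ∀ s, α (l + s) ≫ i.hom = (α l ≫ i.hom) ≫ ((u' ^ s : End (tp T N)) :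
      tp T N ⟶ tp T N) := by
    intro s
    induction s with
    | zero =>
      change α l ≫ i.hom = (α l ≫ i.hom) ≫ 𝟙 _
      rw [Category.comp_id]
    | succ s ih =>
      rw [← Nat.add_assoc, hα, pow_succ', End.mul_def, ← Category.assoc (α l ≫ i.hom), ← ih]
      change (α (l + s) ≫ u) ≫ i.hom = (α (l + s) ≫ i.hom) ≫ i.inv ≫ u ≫ i.hom
      simp only [Category.assoc, Iso.hom_inv_id_assoc]
  have h1 := hj N N _ (numPow_pow u' hu' j)
  have h2 := sub_map_val (inf_stab hG) ((u' ^ j : End (tp T N)) : tp T N ⟶ tp T N) ⟨_, hβ⟩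
  rw [h1] at h2
  have h3 : (α l ≫ i.hom) ≫ ((u' ^ j : End (tp T N)) : tp T N ⟶ tp T N) = 0 := h2.symm
  rw [← hpow j] at h3
  have h4 : α (l + j) = 0 := by
    have h5 : α (l + j) = (α (l + j) ≫ i.hom) ≫ i.inv := by
      rw [Category.assoc, Iso.hom_inv_id, Category.comp_id]
    rw [h5, h3, zero_comp]
  exact ⟨l + j, coevs_inj ℚ T m _ h4⟩

/-- **The law for the intersection of the filtration.** -/
theorem filtration_law [IsIdempotentComplete C] {T : C} [ExactPairing T T] (h : IsPow ℚ R T)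
    (hG : IsFiltration R T G) :
    ∃ N : ℕ∞, HasLaw ℚ T (fun n => dimE ℚ (infG G (tp T n))) N ∧
      (N = 0 ↔ ∀ n, infG G (tp T n) = ⊥) ∧
      (∀ m n : ℕ, 128 * (m + 1) ^ 2 * bt R T ^ (2 * m + 6) ≤ n →
        2 * dimE ℚ (infG G (tp T n)) < numRank ℚ (tp T n) → infG G (tp T m) = ⊥) ∧
      (N ≠ ⊤ → (∀ (m : ℕ) (y : End (tp T m)), R.H.map (y : tp T m ⟶ tp T m) = 0 →
        IsNilpotent y) ∧ Pool.Agent.R905.IsKimuraFinite T) := by
  obtain ⟨N, h1, h2, h3⟩ := law_full h (sub (homF ℚ (𝟙_ C)) (infG G) (inf_stab hG))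
  have hbot : ∀ n, Subsingleton ((sub (homF ℚ (𝟙_ C)) (infG G) (inf_stab hG)).obj (tp T n)) ↔
      infG G (tp T n) = ⊥ := by
    intro n
    change Subsingleton (infG G (tp T n)) ↔ _
    exact Submodule.subsingleton_iff_eq_bot
  refine ⟨N, h1, h2.trans (forall_congr' hbot), fun m n hn hlt => ?_, fun hN => ?_⟩
  · obtain ⟨f1, f2⟩ := dimE_lt hlt
    exact (hbot m).1 (explicit_criterion h (sub (homF ℚ (𝟙_ C)) (infG G) (inf_stab hG)) hn f1 f2)
  · obtain ⟨j, rfl⟩ := ENat.ne_top_iff_exists.1 hN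
    have hnil := nil_of_fin h hG (h3 j rfl).2.2
    exact ⟨hnil, kimura_of_nil h.real h.cplus hnil⟩

end Pool.Agent.U724.BB
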