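import Pool.Agent.U724.BB.Main

/-!
# The law for the intersection of a filtration of Bloch–Beilinson type, with weaker hypotheses
-/

set_option autoImplicit false
set_option linter.unusedSectionVars false

open CategoryTheory Limits MonoidalCategory Module Filter Topology
open Pool.Agent.Y112.SR Pool.Agent.Y112.KD Pool.Agent.N64.AF Pool.Agent.U724.NT
open Pool.Agent.N701.AFE5 Pool.Agent.N645.AFK1
open scoped ENNReal

namespace Pool.Agent.U724.BB

universe v u w t x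

section Weak

variable {C : Type u} [Category.{v} C] [Preadditive C] [MonoidalCategory C] [SymmetricCategory C]
  [Linear ℚ C] {K : Type w} [Field K]

/-- A descending filtration of the groups `Hom(𝟙, Z)`, compatible with the homologically trivial
endomorphisms of the powers of `T`. -/
structure IsFil (R : SuperRealisation C K) (T : C)
    (G : ℕ → ∀ Z : C, Submodule ℚ (𝟙_ C ⟶ Z)) : Prop where
  zero : ∀ Z, G 0 Z = ⊤
  anti : ∀ k Z, G (k + 1) Z ≤ G k Z
  stab : ∀ (k : ℕ) {Y Z : C} (f : Y ⟶ Z) (α : 𝟙_ C ⟶ Y), α ∈ G k Y → α ≫ f ∈ G k Z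
  shift : ∀ (k n : ℕ) (f : tp T n ⟶ tp T n) (α : 𝟙_ C ⟶ tp T n), R.H.map f = 0 →
    α ∈ G k (tp T n) → α ≫ f ∈ G (k + 1) (tp T n)
  stat : ∀ n, ∃ l, ∀ k, l ≤ k → G k (tp T n) = G l (tp T n)

end Weak

variable {C : Type u} [Category.{v} C] [Preadditive C] [MonoidalCategory C]
  [MonoidalPreadditive C] [SymmetricCategory C] [RightRigidCategory C]
  [Linear ℚ C] [MonoidalLinear ℚ C]
  {K : Type w} [Field K] [IsAlgClosed K] [Algebra ℚ K] {R : SuperRealisation C K}
  {G : ℕ → ∀ Z : C, Submodule ℚ (𝟙_ C ⟶ Z)}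

lemma inf_stab' {T : C} (hG : IsFil R T G) : IsStab (homF ℚ (𝟙_ C)) (infG G) := by
  intro Y Z f α hα
  exact mem_infG.2 fun k => hG.stab k f α (mem_infG.1 hα k)

/-- Nilpotence. -/
theorem nil_of_fin' {T : C} [ExactPairing T T] (h : IsPow ℚ R T) (hG : IsFil R T G) {j : ℕ}
    (hj : ∀ (a b : ℕ) (f : tp T a ⟶ tp T b), NumPow T j f →
      (sub (homF ℚ (𝟙_ C)) (infG G) (inf_stab' hG)).map f = 0) (m : ℕ) (y : End (tp T m))
    (hy : R.H.map (y : tp T m ⟶ tp T m) = 0) : IsNilpotent y := by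
  obtain ⟨N, ⟨i⟩⟩ := up_iso T m m
  obtain ⟨l, hl⟩ := hG.stat N
  set u : (up T m).obj (tp T m) ⟶ (up T m).obj (tp T m) := (up T m).map (y : tp T m ⟶ tp T m)
    with hu
  have hu0 : R.H.map u = 0 := up_hom R T m _ hy
  let α : ℕ → (𝟙_ C ⟶ (up T m).obj (tp T m)) := fun L =>
    coevs T m ≫ (up T m).map ((y ^ L : End (tp T m)) : tp T m ⟶ tp T m)
  have hα : ∀ L, α (L + 1) = α L ≫ u := by
    intro L
    change coevs T m ≫ (up T m).map ((y ^ (L + 1) : End (tp T m)) : tp T m ⟶ tp T m) =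
      (coevs T m ≫ (up T m).map ((y ^ L : End (tp T m)) : tp T m ⟶ tp T m)) ≫ u
    rw [pow_succ', End.mul_def, Functor.map_comp, Category.assoc]
  let u' : End (tp T N) := (i.inv ≫ u ≫ i.hom : tp T N ⟶ tp T N)
  have hu'0 : R.H.map (u' : tp T N ⟶ tp T N) = 0 := by
    change R.H.map (i.inv ≫ u ≫ i.hom) = 0
    rw [Functor.map_comp, Functor.map_comp, hu0, zero_comp, comp_zero]
  have hu' : NumTriv (u' : tp T N ⟶ tp T N) := numTriv_of_map h.real hu'0
  have hαG : ∀ L, α L ≫ i.hom ∈ G L (tp T N) := by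
    intro L
    induction L with
    | zero =>
      rw [hG.zero]
      exact Submodule.mem_top
    | succ L ih =>
      have h1 : α (L + 1) ≫ i.hom = (α L ≫ i.hom) ≫ (u' : tp T N ⟶ tp T N) := by
        rw [hα]
        change (α L ≫ u) ≫ i.hom = (α L ≫ i.hom) ≫ i.inv ≫ u ≫ i.hom
        simp only [Category.assoc, Iso.hom_inv_id_assoc]
      rw [h1]
      exact hG.shift L N _ _ hu'0 ih
  have hβ : α l ≫ i.hom ∈ infG G (tp T N) := by
    rw [mem_infG]
    intro k
    by_cases hk : l ≤ k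
    · rw [hl k hk]
      exact hαG l
    · have h1 : G l (tp T N) ≤ G k (tp T N) :=
        (antitone_nat_of_succ_le (f := fun k => G k (tp T N)) fun k => hG.anti k _)
          (not_le.1 hk).le
      exact h1 (hαG l)
  have hpow : ∀ s, α (l + s) ≫ i.hom = (α l ≫ i.hom) ≫ ((u' ^ s : End (tp T N)) :
      tp T N ⟶ tp T N) := by
    intro s
    induction s with
    | zero =>
      change α l ≫ i.hom = (α l ≫ i.hom) ≫ 𝟙 _
      rw [Category.comp_id]
    | succ s ih =>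
      rw [← Nat.add_assoc, hα, pow_succ', End.mul_def, ← Category.assoc (α l ≫ i.hom), ← ih]
      change (α (l + s) ≫ u) ≫ i.hom = (α (l + s) ≫ i.hom) ≫ i.inv ≫ u ≫ i.hom
      simp only [Category.assoc, Iso.hom_inv_id_assoc]
  have h1 := hj N N _ (numPow_pow u' hu' j)
  have h2 := sub_map_val (inf_stab' hG) ((u' ^ j : End (tp T N)) : tp T N ⟶ tp T N) ⟨_, hβ⟩
  rw [h1] at h2
  have h3 : (α l ≫ i.hom) ≫ ((u' ^ j : End (tp T N)) : tp T N ⟶ tp T N) = 0 := h2.symm
  rw [← hpow j] at h3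
  have h4 : α (l + j) = 0 := by
    have h5 : α (l + j) = (α (l + j) ≫ i.hom) ≫ i.inv := by
      rw [Category.assoc, Iso.hom_inv_id, Category.comp_id]
    rw [h5, h3, zero_comp]
  exact ⟨l + j, coevs_inj ℚ T m _ h4⟩

/-- **The law for the intersection of the filtration.** -/
theorem filtration_law' [IsIdempotentComplete C] {T : C} [ExactPairing T T] (h : IsPow ℚ R T)
    (hG : IsFil R T G) :
    ∃ N : ℕ∞, HasLaw ℚ T (fun n => dimE ℚ (infG G (tp T n))) N ∧
      (N = 0 ↔ ∀ n, infG G (tp T n) = ⊥) ∧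
      (∀ m n : ℕ, 128 * (m + 1) ^ 2 * bt R T ^ (2 * m + 6) ≤ n →
        2 * dimE ℚ (infG G (tp T n)) < numRank ℚ (tp T n) → infG G (tp T m) = ⊥) ∧
      (N ≠ ⊤ → (∀ (m : ℕ) (y : End (tp T m)), R.H.map (y : tp T m ⟶ tp T m) = 0 →
        IsNilpotent y) ∧ Pool.Agent.R905.IsKimuraFinite T) := by
  obtain ⟨N, h1, h2, h3⟩ := law_full h (sub (homF ℚ (𝟙_ C)) (infG G) (inf_stab' hG))
  have hbot : ∀ n, Subsingleton ((sub (homF ℚ (𝟙_ C)) (infG G) (inf_stab' hG)).obj (tp T n)) ↔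
      infG G (tp T n) = ⊥ := by
    intro n
    change Subsingleton (infG G (tp T n)) ↔ _
    exact Submodule.subsingleton_iff_eq_bot
  refine ⟨N, h1, h2.trans (forall_congr' hbot), fun m n hn hlt => ?_, fun hN => ?_⟩
  · obtain ⟨f1, f2⟩ := dimE_lt hlt
    exact (hbot m).1 (explicit_criterion h (sub (homF ℚ (𝟙_ C)) (infG G) (inf_stab' hG)) hn f1 f2)
  · obtain ⟨j, rfl⟩ := ENat.ne_top_iff_exists.1 hN
    have hnil := nil_of_fin' h hG (h3 j rfl).2.2
    exact ⟨hnil, kimura_of_nil h.real h.cplus hnil⟩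

end Pool.Agent.U724.BB
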